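import Pool.Agent.H51.MO.TargetsB

/-!
# MP_c62aed_lc: monotone circuits for 3-SAT, assembly for width 3 (helper52)

Row B_MFIN3 of the board `mo_modules`: the core inequality for width 3, the outer systems and the
choice of parameters give `HardW 3 ε c` with some `c > 0`.
-/

namespace Pool.Agent.H52.MO

open Finset
open Pool.Agent.H1.LP (Clause viol Loc Sys Agree supp ip kk)
open Pool.Agent.H96.KX
open Pool.Agent.H51.MO

/-- A circuit which is sound for long lists is sound for shorter ones. -/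
theorem sound_mono {n : ℕ} {C : Circuit n} {k M N : ℕ} (h : Sound C k N) (hMN : M ≤ N) :
    Sound C k M :=
  fun m phi hm hk hs => h m phi (hm.trans hMN) hk hs

/-- Row B_MFIN3. -/
theorem pf_MFIN3 (hX : S_X3) (hC : S_MCORE3) (hP : S_PARM3) : S_MFIN3 := by
  classical
  intro ε hε
  obtain ⟨R0, E, B0, hR0, hE, hsys⟩ := hX ε hε
  obtain ⟨q, K, γ, c, hq, hγ, hc, n₀, hpar⟩ := hP R0 E B0 hR0 hE
  refine ⟨c, hc, K * (2 * q) ^ 3, γ, hγ, n₀, ?_⟩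
  intro n hn
  obtain ⟨B, hB0, hB1, hBE, hBq, hBK, hfin⟩ := hpar n hn
  obtain ⟨T, Ys, hT, hA, hfar⟩ := hsys B hB0
  have hRB : 1 ≤ R0 * B := Nat.mul_pos hR0 hB1
  have h8 : 1 ≤ (2 * q) ^ 3 := Nat.one_le_pow _ _ (by omega)
  obtain ⟨Y, m, phi, hY, hphi, hcore⟩ :=
    hC B (R0 * B) (B / E) q n ε T Ys hRB hBE hq hBq hT hA hfar
  have hK1 : 4 * (R0 * B) ≤ K * (2 * q) ^ 3 * n := by
    calc 4 * (R0 * B) ≤ K * n := hBK
      _ = K * 1 * n := by ring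
      _ ≤ K * (2 * q) ^ 3 * n :=
          Nat.mul_le_mul_right _ (Nat.mul_le_mul_left _ h8)
  have hK2 : R0 * B * (2 * q) ^ 3 ≤ K * (2 * q) ^ 3 * n := by
    calc R0 * B * (2 * q) ^ 3 ≤ 4 * (R0 * B) * (2 * q) ^ 3 :=
          Nat.mul_le_mul_right _ (by omega)
      _ ≤ K * n * (2 * q) ^ 3 := Nat.mul_le_mul_right _ hBK
      _ = K * (2 * q) ^ 3 * n := by ring
  refine ⟨Y, m, phi, hY, ?_, ?_⟩
  · intro a
    obtain ⟨h1, h2, h3, h4⟩ := hphi a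
    exact ⟨h1, h2.trans hK1, h3, h4⟩
  · intro C hS hBd
    have hmain := hcore C (univ.filter (fun a => Pool.Agent.H51.MO.Acc C (phi a))) ((2 : ℝ) ^ (c * n))
      (sound_mono hS hK2) (fun a ha => (mem_filter.1 ha).2) hBd
    refine hfin ((2 : ℝ) ^ (c * n)) _ Y (Nat.cast_nonneg _) le_rfl ?_
    have hR1 : (1 : ℝ) ≤ ((R0 * B : ℕ) : ℝ) := by exact_mod_cast hRB
    have hq1 : (1 : ℝ) ≤ (2 * (q : ℝ)) ^ 3 := by exact_mod_cast h8
    have hγ0 : 0 ≤ γ * n := mul_nonneg hγ.le (Nat.cast_nonneg _)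
    have hp0 : (0 : ℝ) ≤ (2 : ℝ) ^ (-(γ * n)) := Real.rpow_nonneg (by norm_num) _
    have hp1 : (2 : ℝ) ^ (-(γ * n)) ≤ 1 := by
      have := Real.rpow_le_rpow_of_exponent_le (x := (2 : ℝ)) (by norm_num)
        (show -(γ * n) ≤ 0 by linarith)
      simpa using this
    have hp2 : ((2 : ℝ) ^ (-(γ * n))) ^ 2 ≤ 1 := pow_le_one₀ hp0 hp1
    have hN0 : (0 : ℝ) ≤ ((univ.filter (fun a => Pool.Agent.H51.MO.Acc C (phi a))).card : ℝ) *
        ((q : ℝ) / 4) ^ ((B / E) / 3 + 1) := by positivity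
    have hW0 : (0 : ℝ) ≤ 16 ^ B * (2 : ℝ) ^ (c * n) * Y := by
      have : (0 : ℝ) ≤ (2 : ℝ) ^ (c * n) := Real.rpow_nonneg (by norm_num) _
      positivity
    have hRR : ((R0 * B : ℕ) : ℝ) ≤ 9 * (((R0 * B : ℕ) : ℝ) * (2 * q) ^ 3) ^ 2 := by
      have h1 : ((R0 * B : ℕ) : ℝ) ≤ ((R0 * B : ℕ) : ℝ) * (2 * q) ^ 3 :=
        le_mul_of_one_le_right (by linarith) hq1
      have h2 : (1 : ℝ) ≤ ((R0 * B : ℕ) : ℝ) * (2 * q) ^ 3 := hR1.trans h1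
      nlinarith
    calc ((2 : ℝ) ^ (-(γ * n))) ^ 2 * ((univ.filter (fun a => Pool.Agent.H51.MO.Acc C (phi a))).card : ℝ) *
          ((q : ℝ) / 4) ^ ((B / E) / 3 + 1)
        = ((2 : ℝ) ^ (-(γ * n))) ^ 2 * (((univ.filter (fun a => Pool.Agent.H51.MO.Acc C (phi a))).card : ℝ) *
          ((q : ℝ) / 4) ^ ((B / E) / 3 + 1)) := by ring
      _ ≤ 1 * (((univ.filter (fun a => Pool.Agent.H51.MO.Acc C (phi a))).card : ℝ) *
          ((q : ℝ) / 4) ^ ((B / E) / 3 + 1)) := mul_le_mul_of_nonneg_right hp2 hN0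
      _ ≤ ((R0 * B : ℕ) : ℝ) * 16 ^ B * (2 : ℝ) ^ (c * n) * Y := by
          rw [one_mul]; exact hmain
      _ = ((R0 * B : ℕ) : ℝ) * (16 ^ B * (2 : ℝ) ^ (c * n) * Y) := by ring
      _ ≤ 9 * (((R0 * B : ℕ) : ℝ) * (2 * q) ^ 3) ^ 2 * (16 ^ B * (2 : ℝ) ^ (c * n) * Y) :=
          mul_le_mul_of_nonneg_right hRR hW0
      _ = 9 * (((R0 * B : ℕ) : ℝ) * (2 * q) ^ 3) ^ 2 * 16 ^ B * (2 : ℝ) ^ (c * n) * Y := by ring

end Pool.Agent.H52.MO
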